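import Mathlib

set_option autoImplicit false

open FirstOrder FirstOrder.Language

namespace Pool.Agent.Results.MP_bd8d3e_al.JordanQ2

/-- `A` is a Jordan ring: `x y = y x` and `(x^2 y) x = x^2 (y x)`. -/
def IsJordan (A : Type) [NonUnitalNonAssocRing A] : Prop :=
  (∀ x y : A, x * y = y * x) ∧ ∀ x y : A, ((x * x) * y) * x = (x * x) * (y * x)

/-- `rpow x n` is the power `x ^ (n + 1)`, where `x ^ 1 = x` and `x ^ (n + 1) = x ^ n x`. -/
def rpow {A : Type} [NonUnitalNonAssocRing A] (x : A) : ℕ → A
  | 0 => x
  | n + 1 => rpow x n * x

/-- `A` is a nilring: every element has a vanishing power. -/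
def IsNilring (A : Type) [NonUnitalNonAssocRing A] : Prop :=
  ∀ x : A, ∃ n : ℕ, rpow x n = 0

/-- The derived powers: `A ^ (0) = A`, and `A ^ (k + 1)` is the additive subgroup spanned by all
products of two elements of `A ^ (k)`. -/
def derived (A : Type) [NonUnitalNonAssocRing A] : ℕ → AddSubgroup A
  | 0 => ⊤
  | k + 1 => AddSubgroup.closure {z : A | ∃ a ∈ derived A k, ∃ b ∈ derived A k, z = a * b}

/-- `A` is solvable. -/
def IsSolvableRing (A : Type) [NonUnitalNonAssocRing A] : Prop :=
  ∃ k : ℕ, derived A k = ⊥

/-- The function symbols of the language with addition, negation, zero and multiplication. -/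
inductive RingSym : ℕ → Type
  | add : RingSym 2
  | neg : RingSym 1
  | zero : RingSym 0
  | mul : RingSym 2

/-- The language of rings without unit. -/
def LR : Language := ⟨RingSym, fun _ => Empty⟩

/-- The interpretation of the symbols in a ring. -/
def interp (A : Type) [NonUnitalNonAssocRing A] : {n : ℕ} → RingSym n → (Fin n → A) → A
  | _, .add, v => v 0 + v 1
  | _, .neg, v => - v 0
  | _, .zero, _ => 0
  | _, .mul, v => v 0 * v 1

/-- A ring as a structure for this language. -/
@[reducible] def ringStructure (A : Type) [NonUnitalNonAssocRing A] : LR.Structure A where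
  funMap := fun {_} f v => interp A f v
  RelMap := fun {_} r => Empty.elim r

/-- `A` is countably categorical: up to isomorphism its complete theory has exactly one
countable model. -/
def CountablyCategorical (A : Type) [NonUnitalNonAssocRing A] : Prop :=
  letI := ringStructure A
  (∃ (M : Type) (_ : LR.Structure M), Countable M ∧ M ⊨ LR.completeTheory A) ∧
  ∀ (M N : Type) [LR.Structure M] [LR.Structure N], Countable M → Countable N →
    M ⊨ LR.completeTheory A → N ⊨ LR.completeTheory A → Nonempty (M ≃[LR] N)

/-- In a finite ring, the tuple of all elements satisfies a formula which determines the ring. -/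
noncomputable def phi (A : Type) [NonUnitalNonAssocRing A] [Finite A] :
    LR.Formula (Empty ⊕ A) :=
  (Formula.iInf fun p : {p : A × A // p.1 ≠ p.2} =>
      ∼((Term.var (Sum.inr p.1.1)).equal (Term.var (Sum.inr p.1.2)))) ⊓
  ((Formula.iInf fun p : A × A =>
      ((show LR.Functions 2 from RingSym.add).apply₂ (Term.var (Sum.inr p.1))
        (Term.var (Sum.inr p.2))).equal (Term.var (Sum.inr (p.1 + p.2)))) ⊓
  ((Formula.iInf fun p : A × A =>
      ((show LR.Functions 2 from RingSym.mul).apply₂ (Term.var (Sum.inr p.1))
        (Term.var (Sum.inr p.2))).equal (Term.var (Sum.inr (p.1 * p.2)))) ⊓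
  ((Formula.iInf fun a : A =>
      ((show LR.Functions 1 from RingSym.neg).apply₁ (Term.var (Sum.inr a))).equal
        (Term.var (Sum.inr (-a)))) ⊓
  (((Constants.term (show LR.Constants from RingSym.zero)).equal (Term.var (Sum.inr 0))) ⊓
  (BoundedFormula.all (BoundedFormula.iSup fun a : A =>
      (Term.bdEqual (Term.var (Sum.inr 0)) (Term.var (Sum.inl (Sum.inr a)) :
        LR.Term ((Empty ⊕ A) ⊕ Fin 1)))))))))

lemma realize_phi (A : Type) [NonUnitalNonAssocRing A] [Finite A] (M : Type) [LR.Structure M]
    (v : Empty → M) (i : A → M) :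
    (phi A).Realize (Sum.elim v i) ↔
      Function.Injective i ∧
      (∀ a b : A, Structure.funMap (show LR.Functions 2 from RingSym.add) ![i a, i b] =
        i (a + b)) ∧
      (∀ a b : A, Structure.funMap (show LR.Functions 2 from RingSym.mul) ![i a, i b] =
        i (a * b)) ∧
      (∀ a : A, Structure.funMap (show LR.Functions 1 from RingSym.neg) ![i a] = i (-a)) ∧
      Structure.funMap (show LR.Functions 0 from RingSym.zero) ![] = i 0 ∧
      (∀ y : M, ∃ a : A, y = i a) := by
  unfold phi
  rw [Formula.realize_inf, Formula.realize_inf, Formula.realize_inf, Formula.realize_inf,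
    Formula.realize_inf, Formula.realize_iInf, Formula.realize_iInf, Formula.realize_iInf,
    Formula.realize_iInf]
  refine and_congr ?_ (and_congr ?_ (and_congr ?_ (and_congr ?_ (and_congr ?_ ?_))))
  · constructor
    · intro h a b hab
      by_contra hne
      have h1 := h ⟨(a, b), hne⟩
      rw [Formula.realize_not, Formula.realize_equal] at h1
      exact h1 hab
    · rintro h ⟨⟨a, b⟩, hne⟩
      rw [Formula.realize_not, Formula.realize_equal]
      intro hab
      exact hne (h hab)
  · constructor
    · intro h a b
      have h1 := h (a, b)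
      rw [Formula.realize_equal, Term.realize_functions_apply₂] at h1
      exact h1
    · rintro h ⟨a, b⟩
      rw [Formula.realize_equal, Term.realize_functions_apply₂]
      exact h a b
  · constructor
    · intro h a b
      have h1 := h (a, b)
      rw [Formula.realize_equal, Term.realize_functions_apply₂] at h1
      exact h1
    · rintro h ⟨a, b⟩
      rw [Formula.realize_equal, Term.realize_functions_apply₂]
      exact h a b
  · constructor
    · intro h a
      have h1 := h a
      rw [Formula.realize_equal, Term.realize_functions_apply₁] at h1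
      exact h1
    · intro h a
      rw [Formula.realize_equal, Term.realize_functions_apply₁]
      exact h a
  · rw [Formula.realize_equal, Term.realize_constants]
    have : (![] : Fin 0 → M) = default := Subsingleton.elim _ _
    rw [this]
    rfl
  · rw [Formula.Realize, BoundedFormula.realize_all]
    refine forall_congr' fun y => ?_
    rw [BoundedFormula.realize_iSup]
    refine exists_congr fun a => ?_
    rw [BoundedFormula.realize_bdEqual]
    rfl

/-- A model of the theory of a finite ring is isomorphic to it. -/
lemma finite_model (A : Type) [NonUnitalNonAssocRing A] [Finite A] (M : Type) [LR.Structure M]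
    (h : letI := ringStructure A; M ⊨ LR.completeTheory A) :
    letI := ringStructure A; Nonempty (A ≃[LR] M) := by
  letI := ringStructure A
  have hA : A ⊨ ((phi A).iExs A : LR.Sentence) := by
    rw [Sentence.Realize, Formula.realize_iExs]
    refine ⟨id, ?_⟩
    rw [realize_phi]
    exact ⟨Function.injective_id, fun a b => rfl, fun a b => rfl, fun a => rfl, rfl,
      fun y => ⟨y, rfl⟩⟩
  have hM : M ⊨ ((phi A).iExs A : LR.Sentence) := by
    have h1 : ((phi A).iExs A : LR.Sentence) ∈ LR.completeTheory A := hA
    exact h.realize_of_mem _ h1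
  rw [Sentence.Realize, Formula.realize_iExs] at hM
  obtain ⟨i, hi⟩ := hM
  rw [realize_phi] at hi
  obtain ⟨hinj, hadd, hmul, hneg, hzero, hsurj⟩ := hi
  refine ⟨{ toEquiv := Equiv.ofBijective i ⟨hinj, fun y => ?_⟩
            map_fun' := ?_
            map_rel' := ?_ }⟩
  · obtain ⟨a, ha⟩ := hsurj y
    exact ⟨a, ha.symm⟩
  · intro n f v
    change i (Structure.funMap f v) = Structure.funMap f (i ∘ v)
    cases f with
    | add =>
      have e : i ∘ v = ![i (v 0), i (v 1)] := by
        ext k; fin_cases k <;> rfl
      rw [e, hadd]; rfl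
    | neg =>
      have e : i ∘ v = ![i (v 0)] := by
        ext k; fin_cases k; rfl
      rw [e, hneg]; rfl
    | zero =>
      have e : i ∘ v = ![] := Subsingleton.elim _ _
      rw [e, hzero]; rfl
    | mul =>
      have e : i ∘ v = ![i (v 0), i (v 1)] := by
        ext k; fin_cases k <;> rfl
      rw [e, hmul]; rfl
  · intro n r v
    exact Empty.elim r

/-- Finite rings are countably categorical. -/
lemma finite_cc (A : Type) [NonUnitalNonAssocRing A] [Finite A] : CountablyCategorical A := by
  unfold CountablyCategorical
  letI := ringStructure A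
  refine ⟨⟨A, ringStructure A, inferInstance, ?_⟩, ?_⟩
  · infer_instance
  · intro M N _ _ _ _ hM hN
    obtain ⟨e⟩ := finite_model A M hM
    obtain ⟨f⟩ := finite_model A N hN
    exact ⟨f.comp e.symm⟩

/-- The three-dimensional algebra over the field with two elements with the cross product. -/
def B : Type := ZMod 2 × ZMod 2 × ZMod 2

instance : AddCommGroup B := inferInstanceAs (AddCommGroup (ZMod 2 × ZMod 2 × ZMod 2))
instance : Fintype B := inferInstanceAs (Fintype (ZMod 2 × ZMod 2 × ZMod 2))
instance : DecidableEq B := inferInstanceAs (DecidableEq (ZMod 2 × ZMod 2 × ZMod 2))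

instance : Mul B := ⟨fun x y =>
  ((x.2.1 * y.2.2 - x.2.2 * y.2.1, x.2.2 * y.1 - x.1 * y.2.2, x.1 * y.2.1 - x.2.1 * y.1) :
    ZMod 2 × ZMod 2 × ZMod 2)⟩

instance : NonUnitalNonAssocRing B :=
  { (inferInstance : AddCommGroup B), (inferInstance : Mul B) with
    left_distrib := by decide +kernel
    right_distrib := by decide +kernel
    zero_mul := by decide +kernel
    mul_zero := by decide +kernel }

lemma sq_zero : ∀ x : B, x * x = 0 := by decide +kernel

lemma comm : ∀ x y : B, x * y = y * x := by decide +kernel

lemma jordan_B : IsJordan B := by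
  refine ⟨comm, ?_⟩
  intro x y
  rw [sq_zero, zero_mul, zero_mul, zero_mul]

lemma nil_B : IsNilring B := fun x => ⟨1, sq_zero x⟩

def e1 : B := (1, 0, 0)
def e2 : B := (0, 1, 0)
def e3 : B := (0, 0, 1)

lemma e12 : e1 * e2 = e3 := by decide +kernel
lemma e23 : e2 * e3 = e1 := by decide +kernel
lemma e31 : e3 * e1 = e2 := by decide +kernel

lemma mem_derived (k : ℕ) : e1 ∈ derived B k ∧ e2 ∈ derived B k ∧ e3 ∈ derived B k := by
  induction k with
  | zero => exact ⟨trivial, trivial, trivial⟩
  | succ k ih =>
    obtain ⟨h1, h2, h3⟩ := ih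
    exact ⟨AddSubgroup.subset_closure ⟨e2, h2, e3, h3, e23.symm⟩,
      AddSubgroup.subset_closure ⟨e3, h3, e1, h1, e31.symm⟩,
      AddSubgroup.subset_closure ⟨e1, h1, e2, h2, e12.symm⟩⟩

lemma not_solvable : ¬ IsSolvableRing B := by
  rintro ⟨k, hk⟩
  have h := (mem_derived k).1
  rw [hk, AddSubgroup.mem_bot] at h
  revert h
  decide +kernel

/-- The assertion of the second question is false. -/
theorem result :
    ¬ (∀ (A : Type) [NonUnitalNonAssocRing A],
      IsJordan A → IsNilring A → CountablyCategorical A → IsSolvableRing A) := by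
  intro h
  exact not_solvable (h B jordan_B nil_B (finite_cc B))

end Pool.Agent.Results.MP_bd8d3e_al.JordanQ2
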